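import Pool.Agent.H.MP_82bed6_co.Span

set_option autoImplicit false

namespace Pool.Agent.Results.MP_82bed6_co.NoEmbedding

open Pool.Agent.H.MP_82bed6_co

/-- For every `b ≥ 2` there are an abelian group `G` of order `2^(2b)` and a Hadamard difference
set `M` of order `2^(2b-2)` in `G` such that `dev M` embeds, as a set of maximal arcs of degree
`2^(b-1)`, in no projective plane of order `2^b`. -/
theorem result.{u, v} :
    ∀ b : ℕ, 2 ≤ b →
      ∃ (G : Type) (_ : CommGroup G) (_ : Fintype G) (_ : DecidableEq G) (M : Finset G),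
        Fintype.card G = 2 ^ (2 * b) ∧ IsHadamardDiffSet b M ∧
        ∀ (P : Type u) (L : Type v) [Membership P L] [Configuration.ProjectivePlane P L]
          [Finite P] [Finite L], Configuration.ProjectivePlane.order P L = 2 ^ b →
            ¬ EmbedsAsMaximalArcs b M P L := by
  intro b hb
  by_cases h2 : b = 2
  · subst h2
    refine ⟨Multiplicative (ZMod 8 × ZMod 2), inferInstance, inferInstance, inferInstance, M2,
      ?_, M2_diffSet, ?_⟩
    · simp [ZMod.card]
    · intro P L _ _ _ _ hord
      exact M2_no_embed P L hord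
  · obtain ⟨n, rfl⟩ : ∃ n, b = n + 1 := ⟨b - 1, by omega⟩
    refine ⟨TG n, inferInstance, inferInstance, inferInstance, MM n, TG.card_TG n,
      MM_diffSet n, ?_⟩
    intro P L _ _ _ _ hord
    exact MM_no_embed (by omega) P L hord

end Pool.Agent.Results.MP_82bed6_co.NoEmbedding
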